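import Pool.Agent.helper3.NTH.Base

/-!
# MP_c8d30a, theorem (A): definitions

A pair `s = (A, B)` of words of tokens stands for the S-state `(A ++ [p e], e :: B)`; `A` is read
cyclically, `B` linearly.  A letter is a pair `{t, p t}`; it is mixed if it has one token in `A` and
one in `B`, red if both are in `A`, blue if both are in `B`.
-/

set_option autoImplicit false

namespace NA

open NTH

universe u
variable {Ω : Type u}

/-- Elementary moves. The number is `1` for a Theta move and `0` for a rotation of `A` and for a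
swap `CM` of two blocks. -/
inductive EM (p : Ω → Ω) : ℕ → St Ω → St Ω → Prop
  | rot (A A' B : List Ω) (h : A ~r A') : EM p 0 (A, B) (A', B)
  | cm (x y z : Ω) (P Q R I P' Q' R' : List Ω) :
      EM p 0 (x :: (P ++ y :: (Q ++ z :: R)), I ++ p x :: (P' ++ p y :: (Q' ++ p z :: R')))
        (y :: (Q ++ x :: (P ++ z :: R)), I ++ p y :: (Q' ++ p x :: (P' ++ p z :: R')))
  | th1 (c x y : Ω) (P Q R D E G F : List Ω) :
      EM p 1 (c :: (P ++ x :: (Q ++ p x :: R)), D ++ p y :: (E ++ y :: (G ++ p c :: F)))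
        (x :: (Q ++ y :: (G ++ p x :: R)), D ++ c :: (P ++ p y :: (E ++ p c :: F)))
  | th2 (c x y : Ω) (P Q R D E G F : List Ω) :
      EM p 1 (c :: (P ++ x :: (Q ++ p x :: R)), D ++ y :: (G ++ p c :: (F ++ p y :: E)))
        (x :: (Q ++ y :: (G ++ p x :: R)), D ++ p c :: (F ++ c :: (P ++ p y :: E)))

/-- Paths; the number is a bound for the number of Theta moves. -/
inductive Pa (p : Ω → Ω) : ℕ → St Ω → St Ω → Prop
  | refl (n : ℕ) (s : St Ω) : Pa p n s s
  | head {k n : ℕ} {s t v : St Ω} (h : EM p k s t) (h' : Pa p n t v) : Pa p (k + n) s v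

/-- a red token: it and its partner are in `A`. -/
def Red (p : Ω → Ω) (s : St Ω) (t : Ω) : Prop := t ∈ s.1 ∧ p t ∈ s.1

/-- a blue token: it and its partner are in `B`. -/
def Blu (p : Ω → Ω) (s : St Ω) (t : Ω) : Prop := t ∈ s.2 ∧ p t ∈ s.2

/-- a mixed token in `A`. -/
def MA (p : Ω → Ω) (s : St Ω) (t : Ω) : Prop := t ∈ s.1 ∧ p t ∈ s.2

/-- a mixed token in `B`. -/
def MB (p : Ω → Ω) (s : St Ω) (t : Ω) : Prop := t ∈ s.2 ∧ p t ∈ s.1

/-- `B` has no closed nonempty suffix (this is irreducibility of the S-state). -/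
def IrB (p : Ω → Ω) (s : St Ω) : Prop :=
  ∀ B1 B2 : List Ω, s.2 = B1 ++ B2 → (∀ t ∈ B2, p t ∈ B2) → B2 = []

/-- the restriction to the tokens with `q`. -/
def fil (q : Ω → Bool) (s : St Ω) : St Ω := (s.1.filter q, s.2.filter q)

section dec

variable [DecidableEq Ω]

/-- the number of mixed letters. -/
def mx (p : Ω → Ω) (s : St Ω) : ℕ := s.1.countP (fun t => decide (p t ∈ s.2))

/-- with `n` Theta moves the number of mixed letters can be made larger. -/
def Drop (p : Ω → Ω) (n : ℕ) (s : St Ω) : Prop := ∃ t, Pa p n s t ∧ mx p s < mx p t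

/-- the cyclic successor in `A` and in `B`. -/
def sc (s : St Ω) : Equiv.Perm Ω := s.1.formPerm * s.2.formPerm

/-- the cyclic predecessor in `A` and in `B`. -/
def pd (s : St Ω) (t : Ω) : Ω := (sc s).symm t

/-- the edges of the face structure; invariant under all moves. -/
def mu (p : Ω → Ω) (s : St Ω) (t : Ω) : Ω := (sc s).symm (p (sc s t))

/-- the core: the words of the mixed letters, both written with the tokens of `A`. -/
def cA (p : Ω → Ω) (s : St Ω) : List Ω := s.1.filter (fun t => decide (p t ∈ s.2))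
def cB (p : Ω → Ω) (s : St Ω) : List Ω := (s.2.filter (fun t => decide (p t ∈ s.1))).map p

end dec

/-- `Gnd p s t g`: `g` is the nearest mixed token at or before `t` (cyclically). -/
inductive Gnd [DecidableEq Ω] (p : Ω → Ω) (s : St Ω) : Ω → Ω → Prop
  | selfA (t : Ω) (h : MA p s t) : Gnd p s t t
  | selfB (t : Ω) (h : MB p s t) : Gnd p s t t
  | red (t g : Ω) (h : Red p s t) (h' : Gnd p s (pd s t) g) : Gnd p s t g
  | blu (t g : Ω) (h : Blu p s t) (h' : Gnd p s (pd s t) g) : Gnd p s t g

/-- run-reversed pairs of cyclic words. -/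
inductive RR : List Ω → List Ω → Prop
  | rev (a b : List Ω) (h : b ~r a.reverse) : RR a b
  | fix (x y : Ω) (a b a' b' : List Ω) (ha : a' ~r x :: y :: a) (hb : b' ~r x :: y :: b)
      (h : RR (y :: a) (y :: b)) : RR a' b'

end NA
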