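import Pool.Agent.helper36.NA.DefsW

/-!
# MP_c8d30a, theorem (A): sections 7, 8, 9 (the walks), statements with complete proofs

RULES. Row `na:XX` = `XX_stmt`. File `Pool/Agent/<seat>/NA/XX.lean` with
`import Pool.Agent.helper36.NA.SpecW` and `theorem NAW.XX : NAW.XX_stmt`; a row that uses other rows
takes their statements as HYPOTHESES (`theorem XX (h : YY_stmt) : XX_stmt`), so all rows can be done
at the same time.  Everything is over `NA.Defs`, `NA.DefsW`; useful: helper3/NA/Mu.lean, Inv.lean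
(`Pa.mu`, `mu_mu`, `Pa.wf`, `Pa.last`, `Pa.zero`, `Pa.pd0`), helper55/NA/Br.lean, helper32/ATT/State.lean.
Notation in the docstrings: `m = (s.1 ++ s.2).length`, core `= (cA p s, cB p s)`, `sc` / `pd` =
cyclic successor / predecessor, `f` = last token of `B`.

BASIC FACTS used everywhere (rows SCB, MUB): `sc s` is a permutation which keeps `s.1` and `s.2`;
`sc (mu t) = p (sc t)`; `mu` is an involution; `mu t` is in `s.1` iff `p (sc t)` is; so for `t ∈ s.1`: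
`mu t ∈ s.1` iff `sc t` is red, and for `t ∈ s.2`: `mu t ∈ s.2` iff `sc t` is blue.
-/

set_option autoImplicit false

namespace NAW

open NTH NA

/-- `x` and `p x` are not adjacent. -/
def Nad {Ω : Type} [DecidableEq Ω] (p : Ω → Ω) (s : St Ω) (x : Ω) : Prop := sc s x ≠ p x ∧ sc s (p x) ≠ x

/-- a target of the blue walk: an end `g` (a token of `B` directly before a blue token), not the end before `p f`. -/
def Tg {Ω : Type} [DecidableEq Ω] (p : Ω → Ω) (s : St Ω) (f g : Ω) : Prop := g ∈ s.2 ∧ Blu p s (sc s g) ∧ sc s g ≠ p f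

/-- SCB: successors and list forms. PROOF. `List.formPerm` lemmas (`formPerm_apply_mem_eq_next`, `isRotated` invariance
`formPerm_eq_of_isRotated`, `formPerm_apply_of_notMem`); the two words are disjoint (`WF.nd`). -/
def SCB_stmt : Prop := ∀ (Ω : Type) [DecidableEq Ω] (p : Ω → Ω) (s : St Ω), WF p s →
  (∀ t, sc s t ∈ s.1 ↔ t ∈ s.1) ∧ (∀ t, sc s t ∈ s.2 ↔ t ∈ s.2) ∧
  (∀ t, pd s t ∈ s.1 ↔ t ∈ s.1) ∧ (∀ t, pd s t ∈ s.2 ↔ t ∈ s.2) ∧
  (∀ (t u : Ω) (L : List Ω), s.1 ~r t :: u :: L → sc s t = u) ∧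
  (∀ (I L : List Ω) (t u : Ω), s.2 = I ++ t :: u :: L → sc s t = u) ∧
  (∀ (f u : Ω) (L : List Ω), s.2 = u :: L → s.2.getLast? = some f → sc s f = u) ∧
  (∀ t ∈ s.1, sc s t ≠ t → ∃ L : List Ω, s.1 ~r t :: sc s t :: L) ∧
  (∀ t ∈ s.2, s.2.getLast? ≠ some t → ∃ I L : List Ω, s.2 = I ++ t :: sc s t :: L)

/-- MUB: `mu`. PROOF. From the definition `mu t = (sc s).symm (p (sc s t))` and SCB. -/
def MUB_stmt : Prop := ∀ (Ω : Type) [DecidableEq Ω] (p : Ω → Ω) (s : St Ω), WF p s →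
  (∀ t, sc s (mu p s t) = p (sc s t)) ∧ (∀ t, mu p s (mu p s t) = t) ∧ (∀ t, mu p s t ≠ t) ∧
  (∀ t, t ∈ s.1 → (mu p s t ∈ s.1 ↔ Red p s (sc s t))) ∧
  (∀ t, t ∈ s.2 → (mu p s t ∈ s.2 ↔ Blu p s (sc s t))) ∧
  (∀ t, t ∈ s.1 ++ s.2 → mu p s t ∈ s.1 ++ s.2)

/-- ATT: ATTACH in the language of `NA` (section 6). PROOF. helper32's `ATTACH'` (`Pool/Agent/helper32/ATT/State.lean`): with
`y := mu q`: `sc y = p (sc q)`, `sc q ∈ s.1` and its partner `sc y ∈ s.2`. Translate `NRR` (his `RR` and this one are the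
same inductive), `Gr` into `Gnd`, and the resulting list forms into `sc` (SCB). -/
def ATT_stmt : Prop := ∀ (Ω : Type) [DecidableEq Ω] (p : Ω → Ω) (s : St Ω) (q u : Ω), WF p s →
  ¬ RR (cA p s) (cB p s) → q ∈ s.1 → mu p s q ∈ s.2 → s.2.getLast? ≠ some (mu p s q) → MA p s u →
  ¬ Gnd p s q u → ¬ Gnd p s (mu p s q) (p u) →
  ∃ t, Pa p 0 s t ∧ sc t q = u ∧ sc t (mu p s q) = p u

/-- HST: THE STEP H. PROOF. `u := pd s z`. ATT with `q = mu y` (`mu q = y`) gives `s1`, `Pa p 0 s s1`, `sc s1 q = u`, `sc s1 y = p u`; `Pa p 0` keeps the two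
words up to `Perm`, the last token of `B`, `mu`, and `pd` of red and blue tokens (helper3: `Pa.zero`, `Pa.last`, `Pa.mu`, `Pa.pd0`), so `pd s1 z = u` and
`s1.1 ~r u :: z :: L`, `p z ∈ L` (`p z ≠ u` because `u` is mixed): `s1.1 ~r u :: (z :: (Q ++ p z :: R))`. `y` is not the last token of `s1.2`, so
`s1.2 = D ++ y :: p u :: F` with `p y ∈ D` or `p y ∈ F`: this is `th2` or `th1` with `c = u`, `x = z`, `P = G = []`. Result `t`: first word
`z :: (Q ++ y :: p z :: R)`; second word (`p y ∈ D`, `D = D1 ++ p y :: E`): `D1 ++ u :: p y :: (E ++ p u :: F)`; (`p y ∈ F`, `F = F1 ++ p y :: E`):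
`D ++ p u :: (F1 ++ u :: p y :: E)`. Now read off: `pd t z = q` (`q` is the last token of `R`, or `q = p z` if `R = []`, because `sc s1 q = u`);
`pd t (p z) = y`; `pd t (p y) = u`; `pd t (p u) = pd s1 y`; `pd t u = pd s1 (p y)` (`pd s1 (p y) ≠ y` because `sc s1 y = p u ≠ p y`); all other tokens `v ≠ p u` keep
the predecessor. For red and blue `v` the predecessor in `s1` is the one in `s`. If the first token of `B` is mixed in `s`: it is mixed in `s1`
(helper3's `Pa.zero` / induct over the moves: only `cm` with `I = []` changes it, from `p x` to `p y`), it is not `y`, `p y`, so `D1 ≠ []` resp. `D ≠ []`, and the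
first token `h` is the same in `t`; `h ≠ p u` (the token `p u` comes after `y`), so `h` is mixed in `t`. `mx`: the mixed tokens of the first word of `t` are those of `s` without `u` and
with `y`. -/
def HST_stmt : Prop := ∀ (Ω : Type) [DecidableEq Ω] (p : Ω → Ω) (s : St Ω) (z y : Ω), WF p s →
  ¬ RR (cA p s) (cB p s) → Red p s z → MA p s (pd s z) → Blu p s y → mu p s y ∈ s.1 → s.2.getLast? ≠ some y →
  ¬ Gnd p s (mu p s y) (pd s z) → ¬ Gnd p s y (p (pd s z)) →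
  ∃ t, Pa p 1 s t ∧ t.1.Perm (y :: s.1.erase (pd s z)) ∧ t.2.Perm (pd s z :: s.2.erase y) ∧
    pd t z = mu p s y ∧ pd t (p z) = y ∧ pd t (p (pd s z)) = pd s y ∧ pd t (pd s z) = pd s (p y) ∧ pd t (p y) = pd s z ∧
    (∀ v, v ≠ z → v ≠ p z → v ≠ y → v ≠ p y → (Red p s v ∨ Blu p s v) → pd t v = pd s v) ∧
    ((∀ h, s.2.head? = some h → MB p s h) → ∀ h, t.2.head? = some h → MB p t h) ∧ mx p t = mx p s

/-! ### distances (pure) -/

/-- DLB: ends of paths. PROOF. Induction over `Dl`. -/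
def DLB_stmt : Prop := ∀ (Ω : Type) (p m : Ω → Ω) (A : Ω → Prop) (f : Ω), (∀ t, p (p t) = t) →
  (∀ (k : ℕ) (t e : Ω), A t → Dl p m A f (2 * k) t e →
    A e ∧ A (m e) ∧ m e ≠ f ∧ (k = 0 → e = t) ∧ (k ≠ 0 → ∃ t', A t' ∧ m t' = p e ∧ m t' ≠ f ∧ ¬ A (p e))) ∧
  (∀ (k : ℕ) (t e : Ω), A t → Dl p m A f (2 * k + 1) t e →
    ¬ A e ∧ ¬ A (p e) ∧ e ≠ f ∧ ∃ t', A t' ∧ m t' = e ∧ (k = 0 → t' = t) ∧ (k ≠ 0 → ¬ A (p t'))) 

/-- FLE: flip at an even end. `u` leaves `A`, `y` comes into `A`. PROOF. Induction over `k`. `k = 0`: `Dl 2 t u` is `step` with `Dl 0 (p (m t)) u`, so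
`p (m t) = u`, `m t = p u`; `¬ A' (p u)` (`p u ≠ y` since `¬ A (p y)`, `A u`), `¬ A' u` (`u ≠ y`): `Dl.one`. `k ≥ 1`: `step` with `Dl (2k) (p (m t)) u`;
`p (m t) ≠ u`, otherwise the `step` at `u` gives `¬ A (m u)`, but `A (m u)` (DLB); `m t ≠ y` since `A (p (m t))`, `¬ A (p y)`; so `¬ A' (m t)`, `A' (p (m t))`, and
the induction hypothesis. -/
def FLE_stmt : Prop := ∀ (Ω : Type) (p m : Ω → Ω) (A A' : Ω → Prop) (f u y : Ω), (∀ t, p (p t) = t) →
  (∀ t, A' t ↔ (A t ∧ t ≠ u) ∨ t = y) → A u → ¬ A (p u) → ¬ A y → ¬ A (p y) →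
  ∀ (k : ℕ) (t : Ω), Dl p m A f (2 * (k + 1)) t u → ∃ e, Dl p m A' f (2 * k + 1) t e

/-- FLO: flip at an odd end. PROOF. Induction over `k`. `k = 0`: `m t = y`, `A' y`: `Dl.zero`. `k ≥ 1`: `step`. If `m t = p u` then
`¬ A' (m t)`, `¬ A' (p (m t)) = ¬ A' u`: `Dl.one`, `1 ≤ 2k`. Otherwise `¬ A' (m t)` (`m t ≠ y` because `A (p (m t))`), `A' (p (m t))` (`p (m t) ≠ u`),
induction hypothesis and `Dl.step`. -/
def FLO_stmt : Prop := ∀ (Ω : Type) (p m : Ω → Ω) (A A' : Ω → Prop) (f u y : Ω), (∀ t, p (p t) = t) →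
  (∀ t, A' t ↔ (A t ∧ t ≠ u) ∨ t = y) → A u → ¬ A (p u) → ¬ A y → ¬ A (p y) →
  ∀ (k : ℕ) (t : Ω), Dl p m A f (2 * k + 1) t y → ∃ j ≤ 2 * k, ∃ e, Dl p m A' f j t e

/-- DLX: of two starting tokens one has a finite distance. PROOF. `g := p ∘ m`, injective. Call `t` continuing if `m t ≠ f`, `¬ A (m t)`, `A (p (m t))`.
(1) If `t`, `g t`, .., `g^(j-1) t` are continuing and `g^j t` is not, then `Dl (2j) t _` or `Dl (2j+1) t _` or `m (g^j t) = f`.
(2) A starting token `t` (`A t`, and `A (p t)` or `¬ A (m (p t))`) is not `g t''` with `A t''`, `t''` continuing: otherwise `p t = m t''`, so `¬ A (p t)`, and `m (p t) = t''`, so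
`A (m (p t))`. (3) If `g^i t` is continuing for all `i ≤ T.card` there are `i < j ≤ T.card` with `g^i t = g^j t`, `t = g^(j-i) t`, against (2).
(4) If both `t` and `t'` stop with `m (g^j t) = f = m (g^j' t')`, `j ≤ j'`, then `t = g^(j'-j) t'`: `t = t'` or against (2). -/
def DLX_stmt : Prop := ∀ (Ω : Type) [DecidableEq Ω] (p m : Ω → Ω) (A : Ω → Prop) (f : Ω) (T : Finset Ω),
  (∀ t, p (p t) = t) → (∀ t, m (m t) = t) → (∀ t ∈ T, p t ∈ T ∧ m t ∈ T) →
  ∀ t ∈ T, ∀ t' ∈ T, t ≠ t' → A t → A t' → (A (p t) ∨ ¬ A (m (p t))) → (A (p t') ∨ ¬ A (m (p t'))) →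
  ∃ n ≤ 2 * T.card + 1, ∃ e, Dl p m A f n t e ∨ Dl p m A f n t' e

/-! ### the two final certificates and UNRR at state level -/

/-- KRF: certificate K, functional form. `A` contains `c x` and `(p x) z` (adjacent). PROOF. `c ≠ p x` (mixed), `z ≠ x` (`sc` injective), `z ≠ p x`. Rotate: `s.1 ~r c :: x :: L`,
`L = Q ++ p x :: z :: L'`; `p z ∈ L'` or `p z ∈ Q`: pattern K of the page with `u = x`, `v = z`, `P = []` (K1, K2 of helper65's Spec, helper55's certificates). `Good` gives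
the two forms of `B`: `i y k c h y l`, `i y h y k c l` (take for `y`: the last blue token in front of `p c` if its partner is in front of it too; see `BY`). -/
def KRF_stmt : Prop := ∀ (Ω : Type) [DecidableEq Ω] (p : Ω → Ω) (s : St Ω) (c x z : Ω), WF p s →
  MA p s c → Good p s c → Red p s x → Red p s z → sc s c = x → sc s (p x) = z → Drop p 2 s

/-- KBF: certificate K', functional form. `B` contains `a v` (adjacent) and `p v` directly before a mixed token. PROOF. Certificate K' with `u = a`, `G = []`,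
`c = p (sc s (p v))`, red letter `x` (`s.1 ~r c :: L` with both tokens of `x` in `L`). -/
def KBF_stmt : Prop := ∀ (Ω : Type) [DecidableEq Ω] (p : Ω → Ω) (s : St Ω) (x a v : Ω), WF p s →
  Red p s x → Blu p s a → Blu p s v → v ≠ p a → s.2.getLast? ≠ some a → sc s a = v → s.2.getLast? ≠ some (p v) →
  MB p s (sc s (p v)) → Drop p 2 s

/-- UNR: section 5, red (helper2). -/
def UNR_stmt : Prop := ∀ (Ω : Type) [DecidableEq Ω] (p : Ω → Ω) (s : St Ω) (c : Ω) (S : Finset Ω), WF p s →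
  MA p s c → Good p s c → (∀ t ∈ S, Red p s t ∧ p t ∈ S ∧ MA p s (pd s t) ∧ MA p s (sc s t)) → 38 ≤ S.card →
  RR (cA p s) (cB p s) →
  ∃ t, Pa p 4 s t ∧ t.2 = s.2 ∧ t.1.Perm s.1 ∧ ¬ RR (cA p t) (cB p t) ∧
    (∀ v, Red p s v → v ∉ S → pd t v = pd s v) ∧ (∀ v ∈ S, MA p t (pd t v))

/-- UNB: section 5, blue (helper2). -/
def UNB_stmt : Prop := ∀ (Ω : Type) [DecidableEq Ω] (p : Ω → Ω) (s : St Ω) (x f : Ω) (S : Finset Ω), WF p s →
  Red p s x → (∀ t ∈ S, Blu p s t ∧ p t ∈ S ∧ MB p s (pd s t) ∧ MB p s (sc s t)) → s.2.getLast? = some f → f ∉ S →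
  (∀ h, s.2.head? = some h → MB p s h) → 38 ≤ S.card → RR (cA p s) (cB p s) →
  ∃ t, Pa p 4 s t ∧ t.1 = s.1 ∧ t.2.Perm s.2 ∧ ¬ RR (cA p t) (cB p t) ∧
    (∀ v, Blu p s v → v ∉ S → pd t v = pd s v) ∧ (∀ v ∈ S, MB p t (pd t v)) ∧ (∀ h, t.2.head? = some h → MB p t h)

/-! ### the red walk -/

/-- RUN: in the red walk the core can be assumed not to be run-reversed. PROOF. If the core is RR: UNR with `S = R`, `c := p (sc s y)` (`y` is directly before the mixed token `p c`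
and is not the last token, so `Good`); `sc s t` is mixed for `t ∈ R`: if it is red, `t = pd (sc t)` is mixed by `iso`, no. The result has the same second word, the same set of
tokens in the first word, the same `mu` (`Pa.mu`), so `RI` and all `Dl` are the same. -/
def RUN_stmt : Prop := ∀ (Ω : Type) [DecidableEq Ω] (p : Ω → Ω) (s : St Ω) (y : Ω) (R : Finset Ω), RI p s y R → 44 ≤ R.card →
  ∃ t, Pa p 4 s t ∧ RI p t y R ∧ t.2 = s.2 ∧ (∀ v, v ∈ t.1 ↔ v ∈ s.1) ∧ mu p t = mu p s ∧ ¬ RR (cA p t) (cB p t) ∧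
    mx p t = mx p s

/-- RST: the step of the red walk, general part. For a red `z` and a blue token `e` with `q = mu e` MIXED in `A`, `e` not last, `u = pd z ≠ q`, and `sc (p u)` not blue, the step H leads to `RI` with
the blue token `u`. PROOF. HST with `y := e`. `¬ Gnd q u`: `q` is mixed, so only `Gnd q q`. `¬ Gnd e (p u)`: `Gnd e g` only for `g = pd e`, or `pd e = p e` and `g = pd (p e)`
(the only blue tokens are `e`, `p e`; `sc e` is mixed because `mu e ∈ A`, so `pd (p e) ≠ e`), and `sc g` is blue then. `RI t u R`: `e`, `p e` are `y`, `p y`. Members: `v ∈ t.1` iff (`v ∈ s.1`, `v ≠ u`) or `v = e`; `v ∈ t.2` iff `v = u` or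
(`v ∈ s.2`, `v ≠ e`). Red tokens: the same. Blue: exactly `u`, `p u`. `sc t u = p e` (from `pd t (p e) = u`), mixed in `t`; `u` is not last (`Pa.last`, `f ∈ s.2`, `u ∈ s.1`). `iso`: `pd t z = q` mixed,
`q ≠ u`; `pd t (p z) = e` mixed in `t`; the other red `v`: `pd t v = pd s v`, mixed in `s`, `≠ u` since `sc u = z`. -/
def RST_stmt : Prop := ∀ (Ω : Type) [DecidableEq Ω] (p : Ω → Ω) (s : St Ω) (y z e : Ω) (R : Finset Ω), RI p s y R →
  ¬ RR (cA p s) (cB p s) → z ∈ R → Blu p s e → MA p s (mu p s e) → s.2.getLast? ≠ some e → pd s z ≠ mu p s e →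
  ¬ Blu p s (sc s (p (pd s z))) →
  ∃ t, Pa p 1 s t ∧ RI p t (pd s z) R ∧ (∀ v, v ∈ t.1 ↔ (v ∈ s.1 ∧ v ≠ pd s z) ∨ v = e) ∧ mx p t = mx p s

/-- REV: even distance. PROOF. `e` is mixed in `A` (DLB: `¬ A (p e)`), `u := e`, `mu u ∈ A`, so `z := sc u` is red, `pd z = u`. Take the token `y` of `RI`: `sc y` mixed, so
`q := mu y ∈ A`. `q` is not red: otherwise `Dl 1 q y` (`mu q = y`, blue, not last) against the minimality. So `q` is mixed. `u ≠ q`: `mu u ∈ A`, `mu q = y ∈ B`. `sc (p u)` is not blue: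
otherwise `mu (p u) ∈ B` (MUB), but `mu (p u) = t' ∈ A` (DLB). RST (with `e := y`), then FLE and `Pa.mu`, `Pa.last`. -/
def REV_stmt : Prop := ∀ (Ω : Type) [DecidableEq Ω] (p : Ω → Ω) (s : St Ω) (y x e f : Ω) (R : Finset Ω) (k : ℕ), RI p s y R →
  ¬ RR (cA p s) (cB p s) → s.2.getLast? = some f → x ∈ R → Dl p (mu p s) (· ∈ s.1) f (2 * (k + 1)) x e →
  (∀ t ∈ R, ∀ (j : ℕ) (e' : Ω), Dl p (mu p s) (· ∈ s.1) f j t e' → 2 * (k + 1) ≤ j) →
  ∃ (t : St Ω) (y' e' : Ω) (j : ℕ), Pa p 1 s t ∧ RI p t y' R ∧ t.2.getLast? = some f ∧ j < 2 * (k + 1) ∧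
    Dl p (mu p t) (· ∈ t.1) f j x e' ∧ mx p t = mx p s

/-- ROD: odd distance `≥ 3`. PROOF. DLB: `e` is blue, `≠ f`, `q := mu e = t'` mixed in `A`. Choose `z ∈ R` with `pd z ≠ q` and `p (pd z)` not `pd e`, not `pd (p e)` (three values are excluded, `pd` is injective,
`R.card ≥ 44`); then `sc (p (pd z))` is not blue. RST, FLO. -/
def ROD_stmt : Prop := ∀ (Ω : Type) [DecidableEq Ω] (p : Ω → Ω) (s : St Ω) (y x e f : Ω) (R : Finset Ω) (k : ℕ), RI p s y R →
  44 ≤ R.card → ¬ RR (cA p s) (cB p s) → s.2.getLast? = some f → x ∈ R → Dl p (mu p s) (· ∈ s.1) f (2 * (k + 1) + 1) x e →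
  ∃ (t : St Ω) (y' e' : Ω) (j : ℕ), Pa p 1 s t ∧ RI p t y' R ∧ t.2.getLast? = some f ∧ j < 2 * (k + 1) + 1 ∧
    Dl p (mu p t) (· ∈ t.1) f j x e' ∧ mx p t = mx p s

/-- RO1: distance `1`, the step H. `e = mu x` is blue, `≠ f`, so `sc e = p (sc x)` is mixed and `pd (p e) ≠ e` is mixed. PROOF. `c := pd (p x)` mixed. Choose `z ∈ R`, `z ≠ x`, `z ≠ p x`, `u := pd z`, with `u ≠ pd x`, `p u ≠ pd e`,
`p u ≠ pd (p e)`, `p u ≠ f`, `p u ≠ mu (p x)`, `p u ≠ mu c` (at most 8 values excluded). HST with `y := e` (`¬ Gnd x u`: `x` is red, `Gnd x g` only for `g = pd x`; `¬ Gnd e (p u)` as in RST). In `t`: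
`x z` adjacent (`pd t z = mu e = x`); `pd t (p x) = c`, `c` mixed in `t` (`c ≠ u` since `p x ≠ z`); blue tokens of `t`: exactly `u`, `p u`; red tokens: `R`; for `v ∈ R`, `v ≠ z`: `pd t v` is mixed in `t`
(`v = p z`: `e`). Data for the last step: `h := mu u = pd s (p z)` (`sc s u = z`), mixed in `t`, `h ≠ c` (`p z ≠ p x`); `pd t u = pd s (p e) =: g1` is mixed in `t` (`≠ p u`); `pd t (p u) = pd s e =: g2` is mixed in `t` (if it is `p e`, this is mixed in `t`;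
otherwise it is mixed in `s` and `≠ p u`), `g2 ≠ g1`; `u` is not last; `p u` is not last; `q2 := mu (p u)`: `sc s (p u)` is not blue (its only blue candidates `e`, `p e` are excluded) and `p u ≠ f`, so `q2 ∈ s.1`; `q2 ≠ u` since
`mu u = h ∈ s.1`, `p u ∈ s.2`; so `q2 ∈ t.1`; `q2 ≠ c`, `q2 ≠ p x`. -/
def RO1_stmt : Prop := ∀ (Ω : Type) [DecidableEq Ω] (p : Ω → Ω) (s : St Ω) (y x f : Ω) (R : Finset Ω), RI p s y R →
  44 ≤ R.card → ¬ RR (cA p s) (cB p s) → s.2.getLast? = some f → x ∈ R → Blu p s (mu p s x) → mu p s x ≠ f →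
  ∃ (t : St Ω) (z u : Ω), Pa p 1 s t ∧ z ∈ R ∧ z ≠ x ∧ z ≠ p x ∧ (∀ v, v ∈ R ↔ Red p t v) ∧ pd t z = x ∧
    (∀ v ∈ R, v ≠ z → MA p t (pd t v)) ∧ Blu p t u ∧ (∀ v, Blu p t v → v = u ∨ v = p u) ∧
    t.2.getLast? ≠ some u ∧ t.2.getLast? ≠ some (p u) ∧ MA p t (mu p t u) ∧ mu p t u ≠ pd t (p x) ∧
    MB p t (pd t u) ∧ MB p t (pd t (p u)) ∧ MB p t (sc t u) ∧ mu p t (p u) ∈ t.1 ∧ mu p t (p u) ≠ pd t (p x) ∧ mu p t (p u) ≠ p x ∧
    mx p t = mx p s

/-- RO2: distance `1`, the end. PROOF. `c := pd t (p x)`, mixed (`p x ∈ R`, `p x ≠ z`). `Good c`: KRF (`sc c = p x`, `sc x = z`: the token `x` of KRF is `p x` here). Otherwise: if the core is RR, UNR with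
`S = R \ {x, p x, z, p z}` (`38 ≤ 40`; base `p (sc t u)`, good because `u` is directly before it; `sc t v` is mixed for `v ∈ S`: if it is a red `v'`, `v = pd v'` is mixed or `v' = z`, `v = x`); all data of RO1 stay (`B` is the same word, `mu` the same, `pd` of
`x, p x, z, p z` the same). Now the core is not RR. (i) `p c ≠ pd u`: ATT with `q = mu u`, `mu q = u`: `¬ Gnd q c` since `q` is mixed, `≠ c`; `¬ Gnd u (p c)` since `Gnd u g` only for `g = pd u` (mixed). Result `t1`: `sc t1 u = p c`, `u` not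
last: `p c` is directly behind the blue token `u`: `Good`. (ii) `p c = pd u`: ATT with `q = mu (p u)`, `mu q = p u`: `¬ Gnd (p u) (p c)` since `Gnd (p u) g` only for `g = pd (p u) ≠ pd u = p c`. `¬ Gnd q c`: if `q` is mixed only `g = q ≠ c`; if `q` is red and `q ≠ z`: only
`g = pd q`, `= c` iff `q = p x`, excluded; if `q = z`: `Gnd z g` iff `Gnd x g` iff `g = pd x ≠ pd (p x) = c`. Result: `sc t1 (p u) = p c`: `Good`. `pd` of the red tokens is the same (`Pa.pd0`), KRF. -/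
def RO2_stmt : Prop := ∀ (Ω : Type) [DecidableEq Ω] (p : Ω → Ω) (t : St Ω) (x z u : Ω) (R : Finset Ω), WF p t → 44 ≤ R.card →
  x ∈ R → z ∈ R → z ≠ x → z ≠ p x → (∀ v, v ∈ R ↔ Red p t v) → pd t z = x →
    (∀ v ∈ R, v ≠ z → MA p t (pd t v)) → Blu p t u → (∀ v, Blu p t v → v = u ∨ v = p u) →
    t.2.getLast? ≠ some u → t.2.getLast? ≠ some (p u) → MA p t (mu p t u) → mu p t u ≠ pd t (p x) →
    MB p t (pd t u) → MB p t (pd t (p u)) → MB p t (sc t u) → mu p t (p u) ∈ t.1 → mu p t (p u) ≠ pd t (p x) → mu p t (p u) ≠ p x →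
  Drop p 6 t

/-- RWK: THE RED WALK. PROOF. DLX with two red tokens, `T` = the tokens of `s` (`T.card = m`): some `x ∈ R` and `n ≤ 2 m + 1` with `Dl n x e`. Claim: `Dl n x e`, `x ∈ R`, gives `Drop (5 n + 10)`; strong induction
over `n`. We may take `n` minimal over all of `R`. RUN (4 moves). `n = 0`: `mu x ∈ A`, so `sc x` is red, but `pd (sc x) = x` is not mixed, against `iso`. `n = 1`: RO1, RO2: `4 + 1 + 6`. `n ≥ 2`: REV or ROD, `4 + 1 + 5 (n - 1) + 10`. -/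
def RWK_stmt : Prop := ∀ (Ω : Type) [DecidableEq Ω] (p : Ω → Ω) (s : St Ω) (y : Ω) (R : Finset Ω), RI p s y R → 44 ≤ R.card →
  Drop p (10 * (s.1 ++ s.2).length + 20) s

/-! ### the blue walk -/

/-- BUN: in the blue walk the core can be assumed not to be run-reversed. PROOF. UNB with `S \ {f, p f}` (`46 ≥ 38`): for `t` in it `sc t` is mixed: `t` is not last, if `sc t` is blue then `pd (sc t) = t` is mixed, no.
`Tg` is kept: `sc s g` blue iff `mu g ∈ B` for `g ∈ B` (MUB), and `sc g ≠ p f` iff `g ≠ pd (p f)`: if `p f` is blue its `pd` is the same, otherwise both sides hold. -/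
def BUN_stmt : Prop := ∀ (Ω : Type) [DecidableEq Ω] (p : Ω → Ω) (s : St Ω) (x f : Ω) (S : Finset Ω), BI p s x f S → 48 ≤ S.card →
  ∃ t, Pa p 4 s t ∧ BI p t x f S ∧ t.1 = s.1 ∧ (∀ v, v ∈ t.2 ↔ v ∈ s.2) ∧ mu p t = mu p s ∧ (∀ g, Tg p s f g → Tg p t f g) ∧
    ¬ RR (cA p t) (cB p t) ∧ mx p t = mx p s

/-- BST: the step of the blue walk, general part. `x'` is `x` or `p x`; `u := pd x'` mixed; `w` blue, not last, `q = mu w` mixed in `A`, `≠ u`; `p u` is not directly before a blue token and not last. PROOF. HST with `z = x'`, `y = w`: `¬ Gnd q u` since `q` is mixed, `≠ u`.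
`¬ Gnd w (p u)`: `Gnd w g` only for `g = pd w` (mixed), `sc (p u) ≠ w`. New blue tokens: `S' = (S \ {w, p w}) ∪ {u, p u}`. `BI`: red tokens the same; `hd` from HST; `last` from `Pa.last`;
`iso`: `pd t (p u) = pd s w`, `pd t u = pd s (p w)`, other `v`: `pd t v = pd s v`: mixed in `s`, `≠ p u` (`sc (p u)` is not blue), so mixed in `t`. `Nad`: `pd t x' = q`, `pd t (p x') = w` are mixed in `t`. `Tg g` with `g ≠ p u` stays: if `sc s g = w` then
`sc t g = p u`, if `sc s g = p w` then `sc t g = u`, otherwise `sc t g = sc s g`; `≠ p f`: `p u = p f` would give `u = f`, but `u ∈ A`, `f ∈ B`; `u ≠ p f` by the hypothesis `p u ≠ f`; `sc s g ≠ p f`. -/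
def BST_stmt : Prop := ∀ (Ω : Type) [DecidableEq Ω] (p : Ω → Ω) (s : St Ω) (x x' f w : Ω) (S : Finset Ω), BI p s x f S →
  ¬ RR (cA p s) (cB p s) → (x' = x ∨ x' = p x) → MA p s (pd s x') → w ∈ S → w ≠ f → MA p s (mu p s w) → pd s x' ≠ mu p s w →
  p (pd s x') ≠ f → ¬ Blu p s (sc s (p (pd s x'))) →
  ∃ (t : St Ω) (S' : Finset Ω), Pa p 1 s t ∧ BI p t x f S' ∧ S'.card = S.card ∧ Nad p t x ∧
    (∀ v, v ∈ t.1 ↔ (v ∈ s.1 ∧ v ≠ pd s x') ∨ v = w) ∧ (∀ g, Tg p s f g → Tg p t f g) ∧ mx p t = mx p s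

/-- BOD: odd distance. PROOF. DLB (`p g ∈ A`, `p (p g) = g ∉ A`): `w := e` is blue, `≠ f`, `q := mu w = t'` is mixed in `A` (for `k = 0`: `t' = p g`). Let `u := pd x`, `u' := pd (p x)`: mixed (`Nad` and `only`), `mu u = u'` (`sc u' = p x = p (sc u)`), both in `A`.
If `sc (p u)` is blue: `p u` is an end; if it is a target then `Dl 0 u` (`mu u = u' ∈ A`, so `≠ f`), `p (p u) = u`, against the minimality (`1 ≤ 2k+1`). So `sc (p u) = p f`. The same for `u'`. `sc (p u) = p f = sc (p u')` is impossible, and `p u = f = p u'` is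
impossible. If `f` is mixed, `p f` is not blue, so at most one of `u`, `u'` is bad (`p u = f`); if `f` is blue `p u ≠ f`, and at most one of them is bad (`sc (p u) = p f`). Take the other one: `x'`. `u ≠ q`: `mu q = w ∈ B`, `mu u ∈ A`. BST and FLO. -/
def BOD_stmt : Prop := ∀ (Ω : Type) [DecidableEq Ω] (p : Ω → Ω) (s : St Ω) (x f g e : Ω) (S : Finset Ω) (k : ℕ), BI p s x f S → Nad p s x →
  ¬ RR (cA p s) (cB p s) → Tg p s f g → Dl p (mu p s) (· ∈ s.1) f (2 * k + 1) (p g) e →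
  (∀ g', Tg p s f g' → ∀ (j : ℕ) (e' : Ω), Dl p (mu p s) (· ∈ s.1) f j (p g') e' → 2 * k + 1 ≤ j) →
  ∃ (t : St Ω) (S' : Finset Ω) (e' : Ω) (j : ℕ), Pa p 1 s t ∧ BI p t x f S' ∧ S'.card = S.card ∧ Nad p t x ∧ Tg p t f g ∧ j < 2 * k + 1 ∧
    Dl p (mu p t) (· ∈ t.1) f j (p g) e' ∧ mx p t = mx p s

/-- BEV: even distance `≥ 2`. PROOF. DLB: `u := e ∈ A`, `mu u ∈ A`, `p u = mu t'` with `t' ∈ A`, `p u ≠ f`, `p u ∈ B`. `x' := sc u` is red, so `x` or `p x`. `sc (p u)` is not blue (`mu (p u) = t' ∈ A`, MUB). Choose `w ∈ S`, `w ≠ f`, `w ≠ mu x`, `w ≠ mu (p x)`: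
`sc w` is mixed (`iso`, `w` not last), so `q := mu w ∈ A`; it is not red by the choice; `u ≠ q` since `mu u ∈ A`. BST and FLE. -/
def BEV_stmt : Prop := ∀ (Ω : Type) [DecidableEq Ω] (p : Ω → Ω) (s : St Ω) (x f g e : Ω) (S : Finset Ω) (k : ℕ), BI p s x f S → 48 ≤ S.card →
  ¬ RR (cA p s) (cB p s) → Tg p s f g → Dl p (mu p s) (· ∈ s.1) f (2 * (k + 1)) (p g) e →
  ∃ (t : St Ω) (S' : Finset Ω) (e' : Ω) (j : ℕ), Pa p 1 s t ∧ BI p t x f S' ∧ S'.card = S.card ∧ Nad p t x ∧ Tg p t f g ∧ j < 2 * (k + 1) ∧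
    Dl p (mu p t) (· ∈ t.1) f j (p g) e' ∧ mx p t = mx p s

/-- BZE: distance `0`. PROOF. `u := p g` is mixed in `A` (`pd (sc g) = g` is mixed by `iso`), `mu u ∈ A`, so `x' := sc u` is red (`x` or `p x`), `pd x' = u`. `v := sc g` blue, `v ≠ p f`. Choose `w ∈ S`, `w ∉ {f, v, p v}`, `w ≠ mu x`, `w ≠ mu (p x)`: `q = mu w` mixed in `A`, `≠ u` (`mu u ∈ A`).
`¬ Gnd w (p u)`: `Gnd w g'` only for `g' = pd w ≠ g = p u` (`w ≠ v`). HST (`z = x'`, `y = w`). In `t`: `p u = g` is blue, `pd t v = pd s v = g`; `g` is not last (`f` is last; `g = f` would give `sc g` = the first token of `B`, mixed). `v ≠ p g`: `p g = u ∈ A` in `s`. `p v ≠ f`. `sc t (p v)` is mixed: let `v' = sc t (p v)`, in `t.2`; if it is blue: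
`v' = p u`: `p v = pd t (p u) = pd s w` is mixed in `s`, no; `v' = u`: `p v = pd s (p w)`, no; otherwise `v'` is blue in `s` (`≠ w, p w`), `p v = pd s v'` mixed in `s`, no. KBF with `a = g`. -/
def BZE_stmt : Prop := ∀ (Ω : Type) [DecidableEq Ω] (p : Ω → Ω) (s : St Ω) (x f g : Ω) (S : Finset Ω), BI p s x f S → 48 ≤ S.card →
  ¬ RR (cA p s) (cB p s) → Tg p s f g → mu p s (p g) ∈ s.1 → Drop p 3 s

/-- BP0: phase 0. PROOF. Let `x'` be the first one of the two adjacent tokens: `sc x' = p x'`. `u := pd x'` is mixed: it is not `p x'` (otherwise `A` has only two tokens, then the core is empty, `RR.rev`). `mu u = pd (p (sc u)) = pd (p x') = x' ∈ A`. Choose `w ∈ S` with `w ≠ mu x`, `w ≠ mu (p x)`,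
`sc (p u) ≠ w`, `sc (p u) ≠ p w`; (`f ∉ S` because `f` is mixed); `sc w` is mixed (`iso`), `q = mu w` mixed in `A`, `≠ u`. HST (`z = x'`, `y = w`): `¬ Gnd w (p u)` since `Gnd w g` only for `g = pd w ≠ p u`. In `t` the predecessors of `x'`, `p x'` are `q`, `w`, mixed: `Nad`. If `v := sc (p u)` is blue (then `p u` is not last: the first
token of `B` is mixed) then `pd t v = p u`, both blue in `t`, `v ≠ p (p u) = u`; `p v ≠ f` (`f` is mixed); `sc t (p v)` is mixed as in BZE; KBF: `Drop 3`. Otherwise `BI t` with `S' = (S \ {w, p w}) ∪ {u, p u}` as in BST (here `p u = f` is allowed). -/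
def BP0_stmt : Prop := ∀ (Ω : Type) [DecidableEq Ω] (p : Ω → Ω) (s : St Ω) (x f : Ω) (S : Finset Ω), BI p s x f S → 48 ≤ S.card →
  ¬ RR (cA p s) (cB p s) → ¬ Nad p s x → MB p s f →
  Drop p 3 s ∨ ∃ (t : St Ω) (S' : Finset Ω), Pa p 1 s t ∧ BI p t x f S' ∧ S'.card = S.card ∧ Nad p t x ∧ mx p t = mx p s

/-- BDX: a target with a finite distance. PROOF. Take three blue tokens, so two of them, `v ≠ v'`, are `≠ p f`; `g = pd v`, `g' = pd v'` are targets, mixed (`iso`), `p g, p g' ∈ A`, and `mu (p (p g)) = mu g ∈ B` (MUB). DLX with `T` = the tokens. -/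
def BDX_stmt : Prop := ∀ (Ω : Type) [DecidableEq Ω] (p : Ω → Ω) (s : St Ω) (x f : Ω) (S : Finset Ω), BI p s x f S → 48 ≤ S.card →
  ∃ (g e : Ω) (n : ℕ), Tg p s f g ∧ n ≤ 2 * (s.1 ++ s.2).length + 1 ∧ Dl p (mu p s) (· ∈ s.1) f n (p g) e

/-- BWK: THE BLUE WALK. PROOF. BUN (4). If not `Nad`: BP0 (1) and again BUN. Claim: `BI`, `Nad`, `48 ≤ S.card`, `Tg g`, `Dl n (p g) e` give `Drop (5 n + 7)`: strong induction; `n` minimal over all targets; BUN (4; it keeps `BI`, targets, `mu`, the sides, and `Nad` because the first word is the same); `n = 0`: BZE (`4 + 3`);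
`n` odd: BOD; `n ≥ 2` even: BEV: `4 + 1 + 5 (n - 1) + 7`. Start with BDX: `5 (2 m + 1) + 7 + 4 + 1`. -/
def BWK_stmt : Prop := ∀ (Ω : Type) [DecidableEq Ω] (p : Ω → Ω) (s : St Ω) (x f : Ω) (S : Finset Ω), BI p s x f S → 48 ≤ S.card → MB p s f →
  Drop p (10 * (s.1 ++ s.2).length + 20) s

end NAW
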