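import Pool.Agent.helper36.NA.SpecW
import Pool.Agent.helper55.NA.Cert2
import Pool.Agent.helper3.NA.StepH

/-! # MP_c8d30a, theorem (A): rows KRF, KBF (functional forms of the certificates K and K') -/

set_option autoImplicit false

namespace NAW

open NTH NA NTC NTS

section
variable {Ω : Type} [DecidableEq Ω] {p : Ω → Ω}

theorem k1_drop (hinv : ∀ t, p (p t) = t) (hne : ∀ t, p t ≠ t) (c u v y : Ω) (P Q R S B : List Ω)
    (hg : Gd p (c :: P ++ u :: Q ++ p u :: v :: R ++ p v :: S, B)) (hB : BY p c y B) :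
    NA.Drop p 2 (c :: P ++ u :: Q ++ p u :: v :: R ++ p v :: S, B) := by
  cases hB with
  | a I1 K1 H1 L1 =>
    exact NA.cert_drop ⟨hg.nd, hg.cl, hinv, hne⟩ (fun n => [c, u, v, y].getD n c) (fun n => [P, Q, R, S, I1, K1, H1, L1].getD n []) 1
      [.th 0 1 3, .th 3 2 0] ([.t 0 false, .w 0, .t 1 false, .w 1, .t 1 true, .t 2 false, .w 2, .t 2 true, .w 3], [.w 4, .t 3 false, .w 5, .t 0 true, .w 6, .t 3 true, .w 7]) _
      (by simp [evs, tk]) rfl rfl (by decide)
  | b I1 H1 K1 L1 =>
    exact NA.cert_drop ⟨hg.nd, hg.cl, hinv, hne⟩ (fun n => [c, u, v, y].getD n c) (fun n => [P, Q, R, S, I1, H1, K1, L1].getD n []) 1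
      [.th 0 1 3, .th 3 2 0] ([.t 0 false, .w 0, .t 1 false, .w 1, .t 1 true, .t 2 false, .w 2, .t 2 true, .w 3], [.w 4, .t 3 false, .w 5, .t 3 true, .w 6, .t 0 true, .w 7]) _
      (by simp [evs, tk]) rfl rfl (by decide)

theorem k2_drop (hinv : ∀ t, p (p t) = t) (hne : ∀ t, p t ≠ t) (c u v y : Ω) (P Q R S B : List Ω)
    (hg : Gd p (c :: P ++ u :: Q ++ v :: R ++ p u :: p v :: S, B)) (hB : BY p c y B) :
    NA.Drop p 2 (c :: P ++ u :: Q ++ v :: R ++ p u :: p v :: S, B) := by
  cases hB with
  | a I1 K1 H1 L1 =>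
    exact NA.cert_drop ⟨hg.nd, hg.cl, hinv, hne⟩ (fun n => [c, u, v, y].getD n c) (fun n => [P, Q, R, S, I1, K1, H1, L1].getD n []) 1
      [.th 0 1 3, .th 3 2 0] ([.t 0 false, .w 0, .t 1 false, .w 1, .t 2 false, .w 2, .t 1 true, .t 2 true, .w 3], [.w 4, .t 3 false, .w 5, .t 0 true, .w 6, .t 3 true, .w 7]) _
      (by simp [evs, tk]) rfl rfl (by decide)
  | b I1 H1 K1 L1 =>
    exact NA.cert_drop ⟨hg.nd, hg.cl, hinv, hne⟩ (fun n => [c, u, v, y].getD n c) (fun n => [P, Q, R, S, I1, H1, K1, L1].getD n []) 1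
      [.th 0 1 3, .th 3 2 0] ([.t 0 false, .w 0, .t 1 false, .w 1, .t 2 false, .w 2, .t 1 true, .t 2 true, .w 3], [.w 4, .t 3 false, .w 5, .t 3 true, .w 6, .t 0 true, .w 7]) _
      (by simp [evs, tk]) rfl rfl (by decide)

theorem kb_drop (hinv : ∀ t, p (p t) = t) (hne : ∀ t, p t ≠ t) (c x u v : Ω) (P Q R B : List Ω)
    (hg : Gd p (c :: P ++ x :: Q ++ p x :: R, B)) (hB : BK p c u v B) : NA.Drop p 2 (c :: P ++ x :: Q ++ p x :: R, B) := by
  cases hB with
  | a I1 J1 K1 L1 G1 =>
    exact NA.cert_drop ⟨hg.nd, hg.cl, hinv, hne⟩ (fun n => [c, x, u, v].getD n c) (fun n => [P, Q, R, I1, J1, G1, K1, L1].getD n []) 1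
      [.th 0 1 3, .th 3 1 2] ([.t 0 false, .w 0, .t 1 false, .w 1, .t 1 true, .w 2], [.w 3, .t 2 false, .t 3 false, .w 4, .t 3 true, .w 5, .t 0 true, .w 6, .t 2 true, .w 7]) _
      (by simp [evs, tk]) rfl rfl (by decide)
  | b I1 J1 K1 L1 G1 =>
    exact NA.cert_drop ⟨hg.nd, hg.cl, hinv, hne⟩ (fun n => [c, x, u, v].getD n c) (fun n => [P, Q, R, I1, J1, K1, G1, L1].getD n []) 1
      [.th 0 1 3, .th 3 1 2] ([.t 0 false, .w 0, .t 1 false, .w 1, .t 1 true, .w 2], [.w 3, .t 2 false, .t 3 false, .w 4, .t 2 true, .w 5, .t 3 true, .w 6, .t 0 true, .w 7]) _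
      (by simp [evs, tk]) rfl rfl (by decide)
  | c I1 J1 K1 L1 G1 =>
    exact NA.cert_drop ⟨hg.nd, hg.cl, hinv, hne⟩ (fun n => [c, x, v, u].getD n c) (fun n => [P, Q, R, I1, G1, J1, K1, L1].getD n []) 1
      [.th 0 1 2, .th 2 1 3] ([.t 0 false, .w 0, .t 1 false, .w 1, .t 1 true, .w 2], [.w 3, .t 2 true, .w 4, .t 0 true, .w 5, .t 3 false, .t 2 false, .w 6, .t 3 true, .w 7]) _
      (by simp [evs, tk]) rfl rfl (by decide)
  | d I1 J1 K1 L1 G1 =>
    exact NA.cert_drop ⟨hg.nd, hg.cl, hinv, hne⟩ (fun n => [c, x, v, u].getD n c) (fun n => [P, Q, R, I1, G1, J1, K1, L1].getD n []) 1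
      [.th 0 1 2, .th 2 1 3] ([.t 0 false, .w 0, .t 1 false, .w 1, .t 1 true, .w 2], [.w 3, .t 2 true, .w 4, .t 0 true, .w 5, .t 3 true, .w 6, .t 3 false, .t 2 false, .w 7]) _
      (by simp [evs, tk]) rfl rfl (by decide)
  | e I1 J1 K1 L1 G1 =>
    exact NA.cert_drop ⟨hg.nd, hg.cl, hinv, hne⟩ (fun n => [c, x, u, v].getD n c) (fun n => [P, Q, R, I1, J1, K1, G1, L1].getD n []) 1
      [.th 0 1 3, .th 3 1 2] ([.t 0 false, .w 0, .t 1 false, .w 1, .t 1 true, .w 2], [.w 3, .t 2 true, .w 4, .t 2 false, .t 3 false, .w 5, .t 3 true, .w 6, .t 0 true, .w 7]) _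
      (by simp [evs, tk]) rfl rfl (by decide)
  | f I1 J1 K1 L1 G1 =>
    exact NA.cert_drop ⟨hg.nd, hg.cl, hinv, hne⟩ (fun n => [c, x, u, v].getD n c) (fun n => [P, Q, R, I1, J1, G1, K1, L1].getD n []) 1
      [.th 0 1 3, .th 3 1 2] ([.t 0 false, .w 0, .t 1 false, .w 1, .t 1 true, .w 2], [.w 3, .t 2 true, .w 4, .t 3 true, .w 5, .t 0 true, .w 6, .t 2 false, .t 3 false, .w 7]) _
      (by simp [evs, tk]) rfl rfl (by decide)

/-- a drop of a rotated state. -/
theorem drop_rot {n : ℕ} {A A' B : List Ω} (h : A ~r A') (hd : Drop p n (A', B)) : Drop p n (A, B) := by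
  obtain ⟨t, h1, h2⟩ := hd
  refine ⟨t, ?_, ?_⟩
  · have := (Pa.rot (p := p) A A' B h).trans h1
    simpa using this
  · have h3 : NA.mx p ((A, B) : St Ω) = NA.mx p ((A', B) : St Ω) :=
      mx_perm (s := (A, B)) (t := (A', B)) h.perm (List.Perm.refl _)
    exact lt_of_eq_of_lt h3 h2

theorem gd_rot {A A' B : List Ω} (h : A ~r A') (hw : WF p (A, B)) : Gd p (A', B) := by
  have h1 : (A ++ B).Perm (A' ++ B) := h.perm.append_right B
  exact ⟨h1.nodup_iff.mp hw.nd, fun t ht => h1.mem_iff.mp (hw.cl t (h1.mem_iff.mpr ht))⟩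

theorem good_BY {s : St Ω} (hw : WF p s) {c : Ω} (hc : MA p s c) (hg : Good p s c) : ∃ y, BY p c y s.2 := by
  obtain ⟨y, D, E, hB, hy, hpy⟩ := hg
  have hpc : p y ≠ p c := by
    intro h
    have h1 : y = c := by
      have := congrArg p h
      rwa [hw.inv, hw.inv] at this
    have h2 : y ∈ s.2 := by rw [hB]; simp [hy]
    have := List.nodup_append.mp hw.nd
    exact this.2.2 c hc.1 y h2 h1.symm
  obtain ⟨I, K, rfl⟩ := List.append_of_mem hy
  have h3 : p y ∈ (I ++ y :: K) ++ p c :: E := hB ▸ hpy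
  have h4 : p y ≠ y := hw.ne y
  simp only [List.mem_append, List.mem_cons] at h3
  rcases h3 with (h3 | h3 | h3) | h3 | h3
  · obtain ⟨I1, I2, rfl⟩ := List.append_of_mem h3
    refine ⟨p y, ?_⟩
    have := BY.b (p := p) (c := c) (y := p y) I1 I2 K E
    rw [hw.inv] at this
    rw [hB]
    simpa using this
  · exact absurd h3 h4
  · obtain ⟨K1, K2, rfl⟩ := List.append_of_mem h3
    refine ⟨y, ?_⟩
    have := BY.b (p := p) (c := c) (y := y) I K1 K2 E
    rw [hB]
    simpa using this
  · exact absurd h3 hpc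
  · obtain ⟨E1, E2, rfl⟩ := List.append_of_mem h3
    refine ⟨y, ?_⟩
    have := BY.a (p := p) (c := c) (y := y) I K E1 E2
    rw [hB]
    simpa using this

theorem KRF : KRF_stmt := by
  intro Ω _ p s c x z hw hc hgood hx hz h1 h2
  obtain ⟨A, B⟩ := s
  obtain ⟨y, hBY⟩ := good_BY hw hc hgood
  have hnd := hw.nd
  have hndA : A.Nodup := (List.nodup_append.mp hnd).1
  have hdis : ∀ t, t ∈ A → t ∈ B → False := fun t h h' => (List.nodup_append.mp hnd).2.2 t h t h' rfl
  have hcx : c ≠ x := by
    rintro rfl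
    exact hdis _ hx.2 hc.2
  have hcpx : c ≠ p x := by
    rintro rfl
    have := hc.2
    rw [hw.inv] at this
    exact hdis _ hx.1 this
  have hcz : c ≠ z := by
    rintro rfl
    exact hdis _ hz.2 hc.2
  rw [sc_A hnd hc.1] at h1
  rw [sc_A hnd hx.2] at h2
  obtain ⟨l', hrot⟩ := exists_rot hndA hc.1 h1 hcx.symm
  refine drop_rot hrot ?_
  have hgd := gd_rot hrot hw
  have hnd' : (c :: x :: l').Nodup := hrot.nodup_iff.mp hndA
  rw [List.formPerm_eq_of_isRotated hndA hrot] at h2
  have hmem : ∀ t, t ∈ A ↔ t = c ∨ t = x ∨ t ∈ l' := by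
    intro t
    rw [hrot.perm.mem_iff]
    simp
  have hpx : p x ∈ l' := by
    rcases (hmem _).mp hx.2 with h | h | h
    · exact absurd h.symm hcpx
    · exact absurd h (hw.ne x)
    · exact h
  obtain ⟨Q, L1, rfl⟩ := List.append_of_mem hpx
  cases L1 with
  | nil =>
    have h3 := formPerm_last (A := x :: Q) (a := p x) (b := c) (by simpa using hnd')
    have h4 : List.formPerm (c :: x :: (Q ++ [p x])) (p x) = c := by simpa using h3
    rw [h4] at h2
    exact absurd h2 hcz
  | cons z' L2 =>
    have h3 := formPerm_adj (A1 := c :: x :: Q) (A2 := L2) (a := p x) (b := z') (by simpa using hnd')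
    have h4 : List.formPerm (c :: x :: (Q ++ p x :: z' :: L2)) (p x) = z' := by simpa using h3
    rw [h4] at h2
    subst h2
    have hz'x : z' ≠ x := by
      rintro rfl
      simp [List.nodup_cons] at hnd'
    have hpz : p z' ∈ Q ∨ p z' ∈ L2 := by
      have h5 := (hmem _).mp hz.2
      simp only [List.mem_append, List.mem_cons] at h5
      rcases h5 with h | h | h | h | h | h
      · exfalso
        have : z' = p c := by rw [← h, hw.inv]
        exact hdis _ hz.1 (this ▸ hc.2)
      · exfalso
        have h6 : z' = p x := by rw [← h, hw.inv]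
        rw [h6] at hnd'
        simp [List.nodup_cons, List.nodup_append] at hnd'
      · exact Or.inl h
      · exfalso
        apply hz'x
        have := congrArg p h
        rwa [hw.inv, hw.inv] at this
      · exact absurd h (hw.ne _)
      · exact Or.inr h
    rcases hpz with h | h
    · obtain ⟨Q1, Q2, rfl⟩ := List.append_of_mem h
      -- c x Q1 (p z) Q2 (p x) z L2
      have h5 := k2_drop hw.inv hw.ne c x (p z') y [] Q1 Q2 L2 B (by rw [hw.inv]; simpa using hgd) hBY
      rw [hw.inv] at h5
      simpa using h5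
    · obtain ⟨R, S, rfl⟩ := List.append_of_mem h
      have h5 := k1_drop hw.inv hw.ne c x z' y [] Q R S B (by simpa using hgd) hBY
      simpa using h5

theorem KBF : KBF_stmt := by
  intro Ω _ p s x a v hw hx ha hv hvpa hla h1 hlv hd
  obtain ⟨A, B⟩ := s
  have hnd := hw.nd
  have hndA : A.Nodup := (List.nodup_append.mp hnd).1
  have hndB : B.Nodup := (List.nodup_append.mp hnd).2.1
  have hdis : ∀ t, t ∈ A → t ∈ B → False := fun t h h' => (List.nodup_append.mp hnd).2.2 t h t h' rfl
  rw [sc_B hnd ha.1] at h1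
  obtain ⟨d, hdd⟩ : ∃ d, sc ((A, B) : St Ω) (p v) = d := ⟨_, rfl⟩
  rw [hdd] at hd
  have hscd := hdd
  rw [sc_B hnd hv.2] at hdd
  -- the second word
  have hBK : BK p (p d) a v B := by
    obtain ⟨l1, l2, rfl⟩ := exists_adj hndB ha.1 h1 hla
    have hda : d ≠ a := by rintro rfl; exact hdis _ hd.2 ha.2
    have hdv : d ≠ v := by rintro rfl; exact hdis _ hd.2 hv.2
    have hdpa : d ≠ p a := by
      rintro rfl
      have := hd.2
      rw [hw.inv] at this
      exact hdis _ this ha.1
    have hpva : p v ≠ a := by rintro rfl; exact hvpa (by rw [hw.inv])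
    have hpvpa : p v ≠ p a := by
      intro h
      have h' := congrArg p h
      rw [hw.inv, hw.inv] at h'
      subst h'
      simp [List.nodup_append] at hndB
    have hpv : p v ∈ l1 ∨ p v ∈ l2 := by
      have := hv.2
      simp only [List.mem_append, List.mem_cons] at this
      rcases this with h | h | h | h
      · exact Or.inl h
      · exact absurd h hpva
      · exact absurd h (hw.ne v)
      · exact Or.inr h
    have hpam : p a ∈ l1 ∨ p a ∈ l2 := by
      have := ha.2
      simp only [List.mem_append, List.mem_cons] at this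
      rcases this with h | h | h | h
      · exact Or.inl h
      · exact absurd h (hw.ne a)
      · exact absurd h.symm hvpa
      · exact Or.inr h
    have hinvd : p (p d) = d := hw.inv d
    rcases hpv with h | h
    · obtain ⟨I, l3, rfl⟩ := List.append_of_mem h
      cases l3 with
      | nil =>
        exfalso
        have h5 := formPerm_adj (A1 := I) (A2 := v :: l2) (a := p v) (b := a) (by simpa using hndB)
        have h6 : List.formPerm ((I ++ [p v]) ++ a :: v :: l2) (p v) = a := by simpa using h5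
        rw [h6] at hdd
        exact hda hdd.symm
      | cons d' l3 =>
        have h5 := formPerm_adj (A1 := I) (A2 := l3 ++ a :: v :: l2) (a := p v) (b := d') (by simpa using hndB)
        have h6 : List.formPerm ((I ++ p v :: d' :: l3) ++ a :: v :: l2) (p v) = d' := by simpa using h5
        rw [h6] at hdd
        subst hdd
        rcases hpam with h7 | h7
        · simp only [List.mem_append, List.mem_cons] at h7
          rcases h7 with h7 | h7 | h7 | h7
          · obtain ⟨I1, I2, rfl⟩ := List.append_of_mem h7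
            have := BK.f (p := p) (c := p d') (u := a) (v := v) I1 I2 l3 l2 []
            rw [hinvd] at this
            simpa using this
          · exact absurd h7.symm hpvpa
          · exact absurd h7.symm hdpa
          · obtain ⟨J, K, rfl⟩ := List.append_of_mem h7
            have := BK.d (p := p) (c := p d') (u := a) (v := v) I J K l2 []
            rw [hinvd] at this
            simpa using this
        · obtain ⟨K, L, rfl⟩ := List.append_of_mem h7
          have := BK.c (p := p) (c := p d') (u := a) (v := v) I l3 K L []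
          rw [hinvd] at this
          simpa using this
    · obtain ⟨J, l3, rfl⟩ := List.append_of_mem h
      cases l3 with
      | nil =>
        exfalso
        apply hlv
        simp [List.getLast?_append, List.getLast?_cons]
      | cons d' l3 =>
        have h5 := formPerm_adj (A1 := l1 ++ a :: v :: J) (A2 := l3) (a := p v) (b := d') (by simpa using hndB)
        have h6 : List.formPerm (l1 ++ a :: v :: (J ++ p v :: d' :: l3)) (p v) = d' := by simpa using h5
        rw [h6] at hdd
        subst hdd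
        rcases hpam with h7 | h7
        · obtain ⟨I1, I2, rfl⟩ := List.append_of_mem h7
          have := BK.e (p := p) (c := p d') (u := a) (v := v) I1 I2 J l3 []
          rw [hinvd] at this
          simpa using this
        · simp only [List.mem_append, List.mem_cons] at h7
          rcases h7 with h7 | h7 | h7 | h7
          · obtain ⟨J1, J2, rfl⟩ := List.append_of_mem h7
            have := BK.b (p := p) (c := p d') (u := a) (v := v) l1 J1 J2 l3 []
            rw [hinvd] at this
            simpa using this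
          · exact absurd h7.symm hpvpa
          · exact absurd h7.symm hdpa
          · obtain ⟨K, L, rfl⟩ := List.append_of_mem h7
            have := BK.a (p := p) (c := p d') (u := a) (v := v) l1 J K L []
            rw [hinvd] at this
            simpa using this
  -- the first word
  obtain ⟨A1, A2, rfl⟩ := List.append_of_mem hd.2
  have hrot : (A1 ++ p d :: A2) ~r (p d :: (A2 ++ A1)) := by
    have := List.isRotated_append (l := A1) (l' := p d :: A2)
    simpa using this
  refine drop_rot hrot ?_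
  have hgd := gd_rot hrot hw
  have hx1 : x ∈ A2 ++ A1 := by
    have h5 := hrot.perm.mem_iff.mp hx.1
    rcases List.mem_cons.mp h5 with h | h
    · exfalso
      have := hx.2
      rw [h, hw.inv] at this
      exact hdis _ this hd.1
    · exact h
  have hx2 : p x ∈ A2 ++ A1 := by
    have h5 := hrot.perm.mem_iff.mp hx.2
    rcases List.mem_cons.mp h5 with h | h
    · exfalso
      have h6 : x = d := by rw [← hw.inv x, h, hw.inv]
      exact hdis _ (h6 ▸ hx.1) hd.1
    · exact h
  obtain ⟨P, M, hPM⟩ := List.append_of_mem hx1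
  rw [hPM] at hx2 hgd ⊢
  simp only [List.mem_append, List.mem_cons] at hx2
  rcases hx2 with h | h | h
  · obtain ⟨P1, P2, rfl⟩ := List.append_of_mem h
    have h5 := kb_drop hw.inv hw.ne (p d) (p x) a v P1 P2 M B (by rw [hw.inv]; simpa using hgd) hBK
    rw [hw.inv] at h5
    simpa using h5
  · exact absurd h (hw.ne x)
  · obtain ⟨Q, R, rfl⟩ := List.append_of_mem h
    have h5 := kb_drop hw.inv hw.ne (p d) x a v P Q R B (by simpa using hgd) hBK
    simpa using h5

end

end NAW
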