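import Pool.Agent.helper36.NA.Defs

/-!
# MP_c8d30a, theorem (A): definitions for the walks (sections 7-9 of helper36's page)
-/

set_option autoImplicit false

namespace NA

open NTH

universe u
variable {Ω : Type u}

/-- some blue token is before the token `p c` in `B`. -/
def Good (p : Ω → Ω) (s : St Ω) (c : Ω) : Prop :=
  ∃ (y : Ω) (D E : List Ω), s.2 = D ++ p c :: E ∧ y ∈ D ∧ p y ∈ s.2

/-- distances (sections 8, 9): from the token `t` (in `A`) alternately along `m = mu` and `p`.
`zero`: the edge `{t, m t}` has both ends in `A`. `one`: `m t` is a blue token.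
`step`: `m t` is a mixed token in `B`, go on with its partner in `A`. The last argument is the end:
for even `n` a token `e` in `A` with `m e` in `A`, for odd `n` a blue token `e`. -/
inductive Dl (p m : Ω → Ω) (A : Ω → Prop) (f : Ω) : ℕ → Ω → Ω → Prop
  | zero (t : Ω) (h : m t ≠ f) (h1 : A (m t)) : Dl p m A f 0 t t
  | one (t : Ω) (h : m t ≠ f) (h1 : ¬ A (m t)) (h2 : ¬ A (p (m t))) : Dl p m A f 1 t (m t)
  | step (n : ℕ) (t e : Ω) (h : m t ≠ f) (h1 : ¬ A (m t)) (h2 : A (p (m t)))
      (h3 : Dl p m A f n (p (m t)) e) : Dl p m A f (n + 2) t e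

section dec

variable [DecidableEq Ω]

/-- the invariant of the red walk: `R` = the set of the red tokens, all isolated; one blue letter,
its token `y` is not the last token of `B` and is directly before a mixed token. -/
structure RI (p : Ω → Ω) (s : St Ω) (y : Ω) (R : Finset Ω) : Prop where
  wf : WF p s
  red : ∀ t, t ∈ R ↔ Red p s t
  iso : ∀ t ∈ R, MA p s (pd s t)
  blu : Blu p s y
  only : ∀ t, Blu p s t → t = y ∨ t = p y
  nl : s.2.getLast? ≠ some y
  nx : MB p s (sc s y)

/-- the invariant of the blue walk without the condition that `x`, `p x` are not adjacent: one red letter `{x, p x}`;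
`S` = the set of the blue tokens, all isolated; the first token of `B` is mixed. `f` = the last token of `B`. -/
structure BI (p : Ω → Ω) (s : St Ω) (x f : Ω) (S : Finset Ω) : Prop where
  wf : WF p s
  red : Red p s x
  only : ∀ t, Red p s t → t = x ∨ t = p x
  blu : ∀ t, t ∈ S ↔ Blu p s t
  iso : ∀ t ∈ S, MB p s (pd s t)
  hd : ∀ t, s.2.head? = some t → MB p s t
  last : s.2.getLast? = some f

end dec

end NA
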