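import Pool.Agent.helper36.NA.SpecW

/-! # MP_c8d30a, theorem (A): rows DLB, FLE, FLO (pure facts about the distances `Dl`) -/

set_option autoImplicit false

namespace NAW

open NTH NA

section
variable {Ω : Type} {p m : Ω → Ω} {A A' : Ω → Prop} {f : Ω}

theorem Dl_inv {n : ℕ} {t e : Ω} (h : Dl p m A f n t e) :
    (n = 0 ∧ e = t ∧ m t ≠ f ∧ A (m t)) ∨ (n = 1 ∧ e = m t ∧ m t ≠ f ∧ ¬ A (m t) ∧ ¬ A (p (m t))) ∨
    ∃ n', n = n' + 2 ∧ m t ≠ f ∧ ¬ A (m t) ∧ A (p (m t)) ∧ Dl p m A f n' (p (m t)) e := by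
  cases h with
  | zero _ h h1 => exact Or.inl ⟨rfl, rfl, h, h1⟩
  | one _ h h1 h2 => exact Or.inr (Or.inl ⟨rfl, rfl, h, h1, h2⟩)
  | step n _ _ h h1 h2 h3 => exact Or.inr (Or.inr ⟨n, rfl, h, h1, h2, h3⟩)

theorem dl_even (hp : ∀ t, p (p t) = t) : ∀ (k : ℕ) (t e : Ω), A t → Dl p m A f (2 * k) t e →
    A e ∧ A (m e) ∧ m e ≠ f ∧ (k = 0 → e = t) ∧ (k ≠ 0 → ∃ t', A t' ∧ m t' = p e ∧ m t' ≠ f ∧ ¬ A (p e)) := by
  intro k
  induction k with
  | zero =>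
    intro t e hA h
    rcases Dl_inv h with ⟨-, rfl, h, h1⟩ | ⟨h0, -⟩ | ⟨n, h0, -⟩
    · exact ⟨hA, h1, h, fun _ => rfl, fun h => absurd rfl h⟩
    · omega
    · omega
  | succ k ih =>
    intro t e hA h
    rcases Dl_inv h with ⟨h0, -⟩ | ⟨h0, -⟩ | ⟨n, h0, h, h1, h2, h3⟩
    · omega
    · omega
    obtain rfl : n = 2 * k := by omega
    obtain ⟨a1, a2, a3, a4, a5⟩ := ih _ _ h2 h3
    refine ⟨a1, a2, a3, by omega, fun _ => ?_⟩
    by_cases hk : k = 0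
    · have := a4 hk
      refine ⟨t, hA, ?_, h, ?_⟩
      · rw [this, hp]
      · rw [this, hp]; exact h1
    · exact a5 hk

theorem dl_odd (hp : ∀ t, p (p t) = t) : ∀ (k : ℕ) (t e : Ω), A t → Dl p m A f (2 * k + 1) t e →
    ¬ A e ∧ ¬ A (p e) ∧ e ≠ f ∧ ∃ t', A t' ∧ m t' = e ∧ (k = 0 → t' = t) ∧ (k ≠ 0 → ¬ A (p t')) := by
  intro k
  induction k with
  | zero =>
    intro t e hA h
    rcases Dl_inv h with ⟨h0, -⟩ | ⟨h0, rfl, h, h1, h2⟩ | ⟨n, h0, -⟩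
    · omega
    · exact ⟨h1, h2, h, t, hA, rfl, fun _ => rfl, fun h => absurd rfl h⟩
    · omega
  | succ k ih =>
    intro t e hA h
    rcases Dl_inv h with ⟨h0, -⟩ | ⟨h0, -⟩ | ⟨n, h0, h, h1, h2, h3⟩
    · omega
    · omega
    obtain rfl : n = 2 * k + 1 := by omega
    obtain ⟨a1, a2, a3, t', a4, a5, a6, a7⟩ := ih _ _ h2 h3
    refine ⟨a1, a2, a3, t', a4, a5, by omega, fun _ => ?_⟩
    by_cases hk : k = 0
    · rw [a6 hk, hp]; exact h1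
    · exact a7 hk

theorem dl_fle (hp : ∀ t, p (p t) = t) {u y : Ω} (hA' : ∀ t, A' t ↔ (A t ∧ t ≠ u) ∨ t = y) (hu : A u) (hpu : ¬ A (p u))
    (hy : ¬ A y) (hpy : ¬ A (p y)) : ∀ (k : ℕ) (t : Ω), Dl p m A f (2 * (k + 1)) t u →
    ∃ e, Dl p m A' f (2 * k + 1) t e := by
  intro k
  induction k with
  | zero =>
    intro t h
    rcases Dl_inv h with ⟨h0, -⟩ | ⟨h0, -⟩ | ⟨n, h0, h, h1, h2, h3⟩
    · omega
    · omega
    obtain rfl : n = 0 := by omega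
    have e1 : u = p (m t) := by
      rcases Dl_inv h3 with ⟨-, h4, -⟩ | ⟨h0, -⟩ | ⟨n, h0, -⟩
      · exact h4
      · omega
      · omega
    have e2 : m t = p u := by rw [e1, hp]
    refine ⟨m t, .one t h ?_ ?_⟩
    · rw [hA', e2]
      rintro (⟨h4, -⟩ | h4)
      · exact hpu h4
      · apply hpy; rw [← h4, hp]; exact hu
    · rw [hA', ← e1]
      rintro (⟨-, h4⟩ | h4)
      · exact h4 rfl
      · exact hy (h4 ▸ hu)
  | succ k ih =>
    intro t h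
    rcases Dl_inv h with ⟨h0, -⟩ | ⟨h0, -⟩ | ⟨n, h0, h, h1, h2, h3⟩
    · omega
    · omega
    obtain rfl : n = 2 * (k + 1) := by omega
    obtain ⟨e, h4⟩ := ih _ h3
    have h5 : p (m t) ≠ u := by
      intro h6
      have h7 := (dl_even hp (k + 1) _ _ h2 h3).2.1
      rw [h6] at h3
      rcases Dl_inv h3 with ⟨h0, -⟩ | ⟨h0, -⟩ | ⟨n, h0, -, h8, -⟩
      · omega
      · omega
      · exact h8 h7
    refine ⟨e, ?_⟩
    have : Dl p m A' f (2 * k + 1 + 2) t e := by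
      refine .step _ _ _ h ?_ ?_ h4
      · rw [hA']
        rintro (⟨h8, -⟩ | h8)
        · exact h1 h8
        · apply hpy; rw [← h8]; exact h2
      · rw [hA']
        exact Or.inl ⟨h2, h5⟩
    have e3 : 2 * (k + 1) + 1 = 2 * k + 1 + 2 := by omega
    rw [e3]
    exact this

theorem dl_flo (hp : ∀ t, p (p t) = t) {u y : Ω} (hA' : ∀ t, A' t ↔ (A t ∧ t ≠ u) ∨ t = y) (hu : A u)
    (hy : ¬ A y) (hpy : ¬ A (p y)) : ∀ (k : ℕ) (t : Ω), Dl p m A f (2 * k + 1) t y →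
    ∃ j ≤ 2 * k, ∃ e, Dl p m A' f j t e := by
  intro k
  induction k with
  | zero =>
    intro t h
    rcases Dl_inv h with ⟨h0, -⟩ | ⟨h0, h4, h, h1, h2⟩ | ⟨n, h0, -⟩
    · omega
    · exact ⟨0, by omega, t, .zero t h ((hA' _).mpr (Or.inr h4.symm))⟩
    · omega
  | succ k ih =>
    intro t h
    rcases Dl_inv h with ⟨h0, -⟩ | ⟨h0, -⟩ | ⟨n, h0, h, h1, h2, h3⟩
    · omega
    · omega
    obtain rfl : n = 2 * k + 1 := by omega
    have h8 : ¬ A' (m t) := by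
      rw [hA']
      rintro (⟨h8, -⟩ | h8)
      · exact h1 h8
      · apply hpy; rw [← h8]; exact h2
    by_cases hu' : m t = p u
    · refine ⟨1, by omega, m t, .one t h h8 ?_⟩
      rw [hu', hp, hA']
      rintro (⟨-, h9⟩ | h9)
      · exact h9 rfl
      · exact hy (h9 ▸ hu)
    · obtain ⟨j, hj, e, h4⟩ := ih _ h3
      refine ⟨j + 2, by omega, e, .step _ _ _ h h8 ?_ h4⟩
      rw [hA']
      refine Or.inl ⟨h2, fun h9 => hu' ?_⟩
      rw [← h9, hp]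

theorem DLB : DLB_stmt := fun Ω p m A f hp => ⟨dl_even hp, dl_odd hp⟩

theorem FLE : FLE_stmt := fun Ω p m A A' f u y hp hA' hu hpu hy hpy => dl_fle hp hA' hu hpu hy hpy

theorem FLO : FLO_stmt := fun Ω p m A A' f u y hp hA' hu _ hy hpy => dl_flo hp hA' hu hy hpy

end

end NAW
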